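import Mathlib
import Pool.Agent.W_cae956_h75.L2

set_option autoImplicit false
set_option linter.unusedSectionVars false

/-!
# The `L²` part: finitely many invariant measures
-/

open Finset Filter Topology MeasureTheory Polynomial
open scoped InnerProductSpace Nat ENNReal
open Pool.Agent.W_cae956_h75

namespace Pool.Agent.W_cae956_nil

variable {Ω : Type*} [TopologicalSpace Ω] [MeasurableSpace Ω] [BorelSpace Ω]

theorem inner_ind_eq {ν : Measure Ω} [IsProbabilityMeasure ν] (T : Ω ≃ₜ Ω)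
    (hT : MeasurePreserving T ν ν) (U V : Set Ω)
    (hU : MeasurableSet U) (hV : MeasurableSet V) (n : ℤ) :
    ⟪ind (ν := ν) U hU, koop T hT n (ind V hV)⟫_ℝ = ν.real (U ∩ (⇑(T ^ n)) ⁻¹' V) := by
  rw [L2.inner_def]
  have k2 := (mp_zpow T hT n).quasiMeasurePreserving.ae_eq (ind_coe (ν := ν) V hV)
  have hm : MeasurableSet (U ∩ (⇑(T ^ n)) ⁻¹' V) := hU.inter ((mp_zpow T hT n).measurable hV)
  have : ∀ᵐ x ∂ν, ⟪(ind (ν := ν) U hU) x, (koop T hT n (ind V hV)) x⟫_ℝ =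
      (U ∩ (⇑(T ^ n)) ⁻¹' V).indicator (fun _ => (1 : ℝ)) x := by
    filter_upwards [ind_coe (ν := ν) U hU, koop_coe T hT n (ind V hV), k2] with x h1 h2 h3
    rw [rin, h1, h2, h3]
    by_cases hx : x ∈ U
    · by_cases hx2 : (T ^ n) x ∈ V
      · rw [Set.indicator_of_mem hx, Set.indicator_of_mem (show x ∈ U ∩ _ from ⟨hx, hx2⟩)]
        simp [hx2]
      · rw [Set.indicator_of_notMem (show x ∉ U ∩ (⇑(T ^ n)) ⁻¹' V from fun h => hx2 h.2)]
        simp [hx2]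
    · rw [Set.indicator_of_notMem hx,
        Set.indicator_of_notMem (show x ∉ U ∩ (⇑(T ^ n)) ⁻¹' V from fun h => hx h.1), zero_mul]
  rw [integral_congr_ae this, integral_indicator_const _ hm]
  simp

/-- linear averages converge to the projection -/
theorem lin_avg' {H : Type*} [NormedAddCommGroup H] [InnerProductSpace ℝ H] [CompleteSpace H]
    (K : ℤ → H →ₗᵢ[ℝ] H) (h0 : ∀ f, K 0 f = f) (hadd : ∀ m n f, K (m + n) f = K m (K n f))
    (N : ℕ) (b : ℤ) (u f : H) :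
    Tendsto (fun m : ℕ => (1 / (m : ℝ)) * ∑ n ∈ range m, ⟪u, K (((N ! : ℕ) : ℤ) * n + b) f⟫_ℝ) atTop
      (𝓝 ⟪u, K b (PN K N f)⟫_ℝ) := by
  set q : ℤ := ((N ! : ℕ) : ℤ) with hq
  set a := PN K N f with ha
  have hc : f - a ∈ (fixK K q)ᗮ := Submodule.sub_starProjection_mem_orthogonal _
  have h1 := lin_avg K h0 hadd q b (f - a) hc
  have h2 : Tendsto (fun m : ℕ => ⟪u, (1 / (m : ℝ)) • ∑ n ∈ range m, K (q * n + b) (f - a)⟫_ℝ)
      atTop (𝓝 ⟪u, (0 : H)⟫_ℝ) := tendsto_const_nhds.inner h1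
  rw [inner_zero_right] at h2
  have h3 : Tendsto (fun m : ℕ => ⟪u, K b a⟫_ℝ +
      ⟪u, (1 / (m : ℝ)) • ∑ n ∈ range m, K (q * n + b) (f - a)⟫_ℝ) atTop (𝓝 ⟪u, K b a⟫_ℝ) := by
    simpa using h2.const_add ⟪u, K b a⟫_ℝ
  refine h3.congr' ?_
  filter_upwards [eventually_gt_atTop 0] with m hm
  have hmR : (0 : ℝ) < m := by exact_mod_cast hm
  have e1 : ∀ n : ℕ, K (q * n + b) a = K b a := by
    intro n
    rw [add_comm, hadd, fix_mul K h0 hadd q a (PN_fixed K h0 hadd N f)]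
  have e2 : ∀ n : ℕ, K (q * n + b) (f - a) = K (q * n + b) f - K b a := by
    intro n
    rw [map_sub, e1]
  simp only [e2, Finset.sum_sub_distrib, smul_sub, inner_sub_right, real_inner_smul_right,
    inner_sum, Finset.sum_const, card_range, nsmul_eq_mul]
  have e3 : ⟪u, (m : ℕ) • K b a⟫_ℝ = (m : ℝ) * ⟪u, K b a⟫_ℝ := by
    rw [← Nat.cast_smul_eq_nsmul ℝ, real_inner_smul_right]
  rw [e3]
  field_simp
  ring

theorem l2_finish (T : Ω ≃ₜ Ω) {I : Type*} [Fintype I] (ν : I → Measure Ω)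
    (hp : ∀ i, IsProbabilityMeasure (ν i)) (hT : ∀ i, MeasurePreserving T (ν i) (ν i))
    (P : ℤ[X]) (hP : 0 < P.natDegree) (U V : Set Ω) (hU : MeasurableSet U) (hV : MeasurableSet V)
    (hno : ∀ m : ℤ, ∀ x ∈ U, (T ^ (P.eval m)) x ∉ V) (n : I → ℤ)
    (hsolve : ∀ Q : ℕ, 0 < Q → ∃ w : ℤ, ∀ i, ∃ z : ℤ, (Q : ℤ) ∣ P.eval z - (w + n i))
    (hsum : ∀ l : ℤ, 1 ≤ ∑ i, (ν i).real (U ∩ (⇑(T ^ (l + n i))) ⁻¹' V)) : False := by
  let K := fun i => koop T (hT i)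
  have K0 : ∀ i f, K i 0 f = f := fun i => koop_zero T (hT i)
  have Kadd : ∀ i m n f, K i (m + n) f = K i m (K i n f) := fun i => koop_add T (hT i)
  let f : ∀ i, Lp ℝ 2 (ν i) := fun i => ind V hV
  let u : ∀ i, Lp ℝ 2 (ν i) := fun i => ind U hU
  have hin : ∀ i l, ⟪u i, K i l (f i)⟫_ℝ = (ν i).real (U ∩ (⇑(T ^ l)) ⁻¹' V) :=
    fun i l => inner_ind_eq T (hT i) U V hU hV l
  have hmain : ∀ N : ℕ, 1 ≤ ∑ i, ‖Pinf (K i) (f i) - PN (K i) N (f i)‖ := by
    intro N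
    obtain ⟨w, hw⟩ := hsolve (N !) (Nat.factorial_pos N)
    choose z hz using hw
    have h1 : 1 ≤ ∑ i, ⟪u i, K i (w + n i) (PN (K i) N (f i))⟫_ℝ := by
      have hlim : Tendsto (fun m : ℕ => ∑ i, (1 / (m : ℝ)) * ∑ j ∈ range m,
          ⟪u i, K i (((N ! : ℕ) : ℤ) * j + (w + n i)) (f i)⟫_ℝ) atTop
          (𝓝 (∑ i, ⟪u i, K i (w + n i) (PN (K i) N (f i))⟫_ℝ)) :=
        tendsto_finsetSum _ fun i _ => lin_avg' (K i) (K0 i) (Kadd i) N (w + n i) (u i) (f i)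
      refine ge_of_tendsto hlim ?_
      filter_upwards [eventually_gt_atTop 0] with m hm
      have hmR : (0 : ℝ) < m := by exact_mod_cast hm
      rw [← Finset.mul_sum, Finset.sum_comm]
      have h2 : (m : ℝ) ≤ ∑ j ∈ range m, ∑ i,
          ⟪u i, K i (((N ! : ℕ) : ℤ) * j + (w + n i)) (f i)⟫_ℝ := by
        calc (m : ℝ) = ∑ j ∈ range m, (1 : ℝ) := by simp
          _ ≤ _ := Finset.sum_le_sum fun j _ => by
            refine (hsum (((N ! : ℕ) : ℤ) * j + w)).trans (le_of_eq ?_)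
            refine Finset.sum_congr rfl fun i _ => ?_
            rw [hin, add_assoc]
      calc (1 : ℝ) = (1 / (m : ℝ)) * m := by field_simp
        _ ≤ _ := by gcongr
    refine h1.trans (Finset.sum_le_sum fun i _ => ?_)
    have c2 : K i (w + n i) (PN (K i) N (f i)) = K i (P.eval (z i)) (PN (K i) N (f i)) := by
      obtain ⟨t, ht⟩ := hz i
      have h3 : P.eval (z i) = (w + n i) + (N ! : ℕ) * t := by linarith
      have h2 : K i ((w + n i) + (N ! : ℕ) * t) (PN (K i) N (f i)) =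
          K i (w + n i) (K i ((N ! : ℕ) * t) (PN (K i) N (f i))) := Kadd _ _ _ _
      rw [h3, h2, fix_mul (K i) (K0 i) (Kadd i) _ _ (PN_fixed (K i) (K0 i) (Kadd i) N (f i))]
    have c3 := core (K i) (K0 i) (Kadd i) P hP (u i) (f i)
      (fun m => inner_ind_zero T (hT i) U V hU hV _ (hno m)) N (z i)
    have c4 : ‖u i‖ ≤ 1 := norm_ind_le _ _
    have c7 : ‖u i‖ * ‖Pinf (K i) (f i) - PN (K i) N (f i)‖ ≤
        ‖Pinf (K i) (f i) - PN (K i) N (f i)‖ := by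
      have := norm_nonneg (Pinf (K i) (f i) - PN (K i) N (f i))
      nlinarith
    rw [c2]
    exact ((le_abs_self _).trans c3).trans c7
  have hlim : Tendsto (fun N : ℕ => ∑ i, ‖Pinf (K i) (f i) - PN (K i) N (f i)‖) atTop (𝓝 0) := by
    have : Tendsto (fun N : ℕ => ∑ i, ‖Pinf (K i) (f i) - PN (K i) N (f i)‖) atTop
        (𝓝 (∑ i : I, (0 : ℝ))) := by
      apply tendsto_finsetSum
      intro i _
      have h1 := PN_tendsto (K i) (K0 i) (Kadd i) (f i)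
      have h2 : Tendsto (fun N => Pinf (K i) (f i) - PN (K i) N (f i)) atTop
          (𝓝 (Pinf (K i) (f i) - Pinf (K i) (f i))) := tendsto_const_nhds.sub h1
      rw [sub_self] at h2
      simpa using h2.norm
    simpa using this
  have := ge_of_tendsto' hlim hmain
  linarith

end Pool.Agent.W_cae956_nil
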