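import Mathlib

set_option autoImplicit false

/-!
# The elimination procedure in a nilpotent group

Let `Z_0 = 1, Z_1, ..., Z_s` be the upper central series of `G`. The level of a map `ρ : Λ → G`
with values in `Z_s` is the least `t` with `ρ l ∈ Z_t` for all `l`. For a finite set `R` of such
maps let `D_t R` be the set of classes modulo `Z_(t-1)` (pointwise; two maps `ρ σ` are equivalent
if `ρ l * (σ l)⁻¹ ∈ Z_(t-1)` for all `l`; for `t = 0` the only class is the map `1`) of its elements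
of level exactly `t`. Take `ρ ∈ R` of minimal level `j` and pass to
`R' = {g (τ ρ⁻¹) g⁻¹ : g ∈ L, τ ∈ R, τ ≠ ρ}`.
* If `τ` has level `t > j`, then `g τ ρ⁻¹ g⁻¹` has level `t` and is congruent to `τ` modulo
  `Z_(t-1)` (as `[g, τ l] ∈ Z_(t-1)` and `ρ l ∈ Z_j ⊆ Z_(t-1)`). So `D_t R' ⊆ D_t R` for `t > j`.
* If `τ` has level `j`, then `g τ ρ⁻¹ g⁻¹` is congruent to `τ ρ⁻¹` modulo `Z_(j-1)`; it has level `j`
  and class `[τ][ρ]⁻¹` if `[τ] ≠ [ρ]`, and level `< j` if `[τ] = [ρ]`. So `|D_j R'| < |D_j R|`.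
Hence the vector `(|D_s|, ..., |D_0|)` decreases lexicographically, and every `R` is eliminated
after finitely many steps.
-/

namespace Pool.Agent.W_cae956_nil

/-- `R` can be eliminated -/
inductive Elim {G Λ : Type*} [Group G] : Set (Λ → G) → Prop
  | empty : Elim ∅
  | step (R : Set (Λ → G)) (ρ : Λ → G) (hρ : ρ ∈ R)
      (h : ∀ L : Set G, L.Finite →
        Elim {σ | ∃ g ∈ L, ∃ τ ∈ R, τ ≠ ρ ∧ σ = fun l => g * (τ l * (ρ l)⁻¹) * g⁻¹}) : Elim R

private theorem lex_ind (s : ℕ) : ∀ (P : (ℕ → ℕ) → Prop),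
    (∀ c, (∀ c', (∃ j ≤ s, c' j < c j ∧ ∀ t, j < t → c' t ≤ c t) → P c') → P c) →
    ∀ c, P c := by
  induction s with
  | zero =>
    intro P h c
    induction hn : c 0 using Nat.strong_induction_on generalizing c with
    | _ n ih =>
      apply h
      rintro c' ⟨j, hj, hlt, -⟩
      obtain rfl : j = 0 := Nat.le_zero.mp hj
      exact ih (c' 0) (hn ▸ hlt) c' rfl
  | succ s ihs =>
    intro P h
    have key : ∀ N, ∀ c, c (s+1) ≤ N → P c := by
      intro N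
      induction N using Nat.strong_induction_on with
      | _ N ihN =>
        refine ihs (fun c => c (s+1) ≤ N → P c) ?_
        intro c hc hcN
        apply h
        rintro c' ⟨j, hj, hlt, hle⟩
        rcases Nat.lt_or_ge j (s+1) with hjs | hjs
        · exact hc c' ⟨j, Nat.lt_succ_iff.mp hjs, hlt, hle⟩ ((hle _ hjs).trans hcN)
        · obtain rfl : j = s+1 := le_antisymm hj hjs
          exact ihN (c' (s+1)) (lt_of_lt_of_le hlt hcN) c' le_rfl
    intro c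
    exact key _ c le_rfl

section

variable {G Λ : Type*} [Group G]

/-- level exactly `t` -/
private def Lv (t : ℕ) (ρ : Λ → G) : Prop :=
  (∀ l, ρ l ∈ Subgroup.upperCentralSeries G t) ∧
    ∀ u < t, ∃ l, ρ l ∉ Subgroup.upperCentralSeries G u

/-- class modulo `Z_(t-1)` -/
private def cl (t : ℕ) (ρ : Λ → G) : Λ → G ⧸ Subgroup.upperCentralSeries G (t - 1) :=
  fun l => (ρ l : G ⧸ Subgroup.upperCentralSeries G (t - 1))

private def D (t : ℕ) (R : Set (Λ → G)) : Set (Λ → G ⧸ Subgroup.upperCentralSeries G (t - 1)) :=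
  cl t '' {ρ | ρ ∈ R ∧ Lv t ρ}

private theorem D_finite (t : ℕ) {R : Set (Λ → G)} (hR : R.Finite) : (D t R).Finite :=
  (hR.subset (fun _ h => h.1)).image _

private theorem exists_lv {s : ℕ} {ρ : Λ → G}
    (h : ∀ l, ρ l ∈ Subgroup.upperCentralSeries G s) : ∃ t ≤ s, Lv t ρ := by
  classical
  have hex : ∃ t, ∀ l, ρ l ∈ Subgroup.upperCentralSeries G t := ⟨s, h⟩
  refine ⟨Nat.find hex, Nat.find_min' hex h, Nat.find_spec hex, fun u hu => ?_⟩
  have := Nat.find_min hex hu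
  push Not at this
  exact this

private theorem zmono {a b : ℕ} (h : a ≤ b) {x : G}
    (hx : x ∈ Subgroup.upperCentralSeries G a) : x ∈ Subgroup.upperCentralSeries G b :=
  Subgroup.upperCentralSeries_mono G h hx

/-- if `x ∈ Z_(t)`, then `g x g⁻¹` and `x` agree modulo `Z_(t-1)` -/
private theorem conj_cl {t : ℕ} (ht : t ≠ 0) (g x : G)
    (hx : x ∈ Subgroup.upperCentralSeries G t) :
    ((g * x * g⁻¹ : G) : G ⧸ Subgroup.upperCentralSeries G (t - 1)) = (x : G ⧸ _) := by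
  obtain ⟨t, rfl⟩ := Nat.exists_eq_succ_of_ne_zero ht
  rw [QuotientGroup.eq]
  have h1 := Subgroup.mem_upperCentralSeries_succ_iff.mp
    ((Subgroup.upperCentralSeries G (t+1)).inv_mem hx) g
  have h2 : (g * x * g⁻¹)⁻¹ * x = (x⁻¹ * g * x * g⁻¹)⁻¹ := by
    group
  rw [h2]
  apply Subgroup.inv_mem
  rw [commutatorElement_def, inv_inv] at h1
  exact h1

private theorem conj_mem {t : ℕ} (g x y : G)
    (hx : x ∈ Subgroup.upperCentralSeries G t) (hy : y ∈ Subgroup.upperCentralSeries G t) :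
    g * (x * y⁻¹) * g⁻¹ ∈ Subgroup.upperCentralSeries G t :=
  (inferInstance : (Subgroup.upperCentralSeries G t).Normal).conj_mem _
    ((Subgroup.upperCentralSeries G t).mul_mem hx ((Subgroup.upperCentralSeries G t).inv_mem hy)) g

/-- the level of `τ` when `g τ ρ⁻¹ g⁻¹` has level `t ≥ j`, `ρ` of level `j` and `τ` of level
at least `j` -/
private theorem lv_of_conj {t j u : ℕ} (hj : j ≤ t) (hu : j ≤ u) (g : G) (τ ρ : Λ → G)
    (hρ : ∀ l, ρ l ∈ Subgroup.upperCentralSeries G j) (hτ : Lv u τ)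
    (hσ : Lv t (fun l => g * (τ l * (ρ l)⁻¹) * g⁻¹)) : u = t := by
  rcases lt_trichotomy u t with h | h | h
  · exfalso
    obtain ⟨l, hl⟩ := hσ.2 u h
    exact hl (conj_mem g _ _ (hτ.1 l) (zmono hu (hρ l)))
  · exact h
  · exfalso
    obtain ⟨l, hl⟩ := hτ.2 t h
    apply hl
    have h1 := (inferInstance : (Subgroup.upperCentralSeries G t).Normal).conj_mem _
      (hσ.1 l) g⁻¹
    have h2 : g⁻¹ * (g * (τ l * (ρ l)⁻¹) * g⁻¹) * g⁻¹⁻¹ = τ l * (ρ l)⁻¹ := by group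
    rw [h2] at h1
    have h3 := (Subgroup.upperCentralSeries G t).mul_mem h1 (zmono hj (hρ l))
    rwa [inv_mul_cancel_right] at h3

private def Rst (L : Set G) (R : Set (Λ → G)) (ρ : Λ → G) : Set (Λ → G) :=
  {σ | ∃ g ∈ L, ∃ τ ∈ R, τ ≠ ρ ∧ σ = fun l => g * (τ l * (ρ l)⁻¹) * g⁻¹}

private theorem Rst_finite {L : Set G} {R : Set (Λ → G)} (hL : L.Finite) (hR : R.Finite)
    (ρ : Λ → G) : (Rst L R ρ).Finite := by
  refine ((hL.prod hR).image
    (fun p : G × (Λ → G) => fun l => p.1 * (p.2 l * (ρ l)⁻¹) * p.1⁻¹)).subset ?_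
  rintro σ ⟨g, hg, τ, hτ, -, rfl⟩
  exact ⟨(g, τ), ⟨hg, hτ⟩, rfl⟩

private theorem D_subset {L : Set G} {R : Set (Λ → G)} {ρ : Λ → G} {j t : ℕ} (hjt : j < t)
    (hρ : ∀ l, ρ l ∈ Subgroup.upperCentralSeries G j)
    (hmin : ∀ τ ∈ R, ∃ u, j ≤ u ∧ Lv u τ) : D t (Rst L R ρ) ⊆ D t R := by
  rintro _ ⟨σ, ⟨⟨g, hg, τ, hτ, hne, rfl⟩, hσ⟩, rfl⟩
  obtain ⟨u, hu, hτu⟩ := hmin τ hτ
  obtain rfl := lv_of_conj hjt.le hu g τ ρ hρ hτu hσ
  refine ⟨τ, ⟨hτ, hτu⟩, ?_⟩
  funext l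
  have ht : u ≠ 0 := by omega
  have hρ' : ρ l ∈ Subgroup.upperCentralSeries G (u - 1) := zmono (by omega) (hρ l)
  have hm : τ l * (ρ l)⁻¹ ∈ Subgroup.upperCentralSeries G u :=
    (Subgroup.upperCentralSeries G u).mul_mem (hτu.1 l)
      ((Subgroup.upperCentralSeries G u).inv_mem (zmono hjt.le (hρ l)))
  show (τ l : G ⧸ Subgroup.upperCentralSeries G (u - 1)) =
    ((g * (τ l * (ρ l)⁻¹) * g⁻¹ : G) : G ⧸ Subgroup.upperCentralSeries G (u - 1))
  rw [conj_cl ht g _ hm, QuotientGroup.mk_mul, QuotientGroup.mk_inv,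
    (QuotientGroup.eq_one_iff (ρ l)).mpr hρ']
  simp

private theorem D_card {L : Set G} {R : Set (Λ → G)} {ρ : Λ → G} {j : ℕ} (hR : R.Finite)
    (hρR : ρ ∈ R) (hρ : Lv j ρ)
    (hmin : ∀ τ ∈ R, ∃ u, j ≤ u ∧ Lv u τ) : (D j (Rst L R ρ)).ncard < (D j R).ncard := by
  have hsub : D j (Rst L R ρ) ⊆ (fun f l => f l * (cl j ρ l)⁻¹) '' (D j R \ {cl j ρ}) := by
    rintro _ ⟨σ, ⟨⟨g, hg, τ, hτ, hne, rfl⟩, hσ⟩, rfl⟩
    obtain ⟨u, hu, hτu⟩ := hmin τ hτ
    obtain rfl := lv_of_conj le_rfl hu g τ ρ hρ.1 hτu hσ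
    have hu0 : u ≠ 0 := by
      rintro rfl
      apply hne
      funext l
      have h1 : τ l = 1 := by
        have := hτu.1 l
        rwa [Subgroup.upperCentralSeries_zero, Subgroup.mem_bot] at this
      have h2 : ρ l = 1 := by
        have := hρ.1 l
        rwa [Subgroup.upperCentralSeries_zero, Subgroup.mem_bot] at this
      rw [h1, h2]
    have hcl : ∀ l, cl u (fun l => g * (τ l * (ρ l)⁻¹) * g⁻¹) l = cl u τ l * (cl u ρ l)⁻¹ := by
      intro l
      have hm : τ l * (ρ l)⁻¹ ∈ Subgroup.upperCentralSeries G u :=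
        (Subgroup.upperCentralSeries G u).mul_mem (hτu.1 l)
          ((Subgroup.upperCentralSeries G u).inv_mem (hρ.1 l))
      show ((g * (τ l * (ρ l)⁻¹) * g⁻¹ : G) : G ⧸ Subgroup.upperCentralSeries G (u - 1)) =
        (τ l : G ⧸ Subgroup.upperCentralSeries G (u - 1)) *
          (ρ l : G ⧸ Subgroup.upperCentralSeries G (u - 1))⁻¹
      rw [conj_cl hu0 g _ hm, QuotientGroup.mk_mul, QuotientGroup.mk_inv]
    refine ⟨cl u τ, ⟨⟨τ, ⟨hτ, hτu⟩, rfl⟩, ?_⟩, ?_⟩
    · intro heq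
      rw [Set.mem_singleton_iff] at heq
      obtain ⟨l, hl⟩ := hσ.2 (u - 1) (by omega)
      apply hl
      have h3 := hcl l
      rw [heq, mul_inv_cancel] at h3
      exact (QuotientGroup.eq_one_iff _).mp h3
    · funext l
      exact (hcl l).symm
  have hfin := D_finite j hR
  have hmem : cl j ρ ∈ D j R := ⟨ρ, ⟨hρR, hρ⟩, rfl⟩
  calc (D j (Rst L R ρ)).ncard ≤ ((fun f l => f l * (cl j ρ l)⁻¹) '' (D j R \ {cl j ρ})).ncard :=
        Set.ncard_le_ncard hsub (hfin.sdiff.image _)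
    _ ≤ (D j R \ {cl j ρ}).ncard := Set.ncard_image_le hfin.sdiff
    _ < (D j R).ncard := Set.ncard_sdiff_singleton_lt_of_mem hmem hfin

end

theorem elim_of_finite {G Λ : Type*} [Group G] (s : ℕ) (R : Set (Λ → G)) (hR : R.Finite)
    (h : ∀ ρ ∈ R, ∀ l, ρ l ∈ Subgroup.upperCentralSeries G s) : Elim R := by
  have key := lex_ind s (fun c => ∀ R : Set (Λ → G), R.Finite →
    (∀ ρ ∈ R, ∀ l, ρ l ∈ Subgroup.upperCentralSeries G s) →
    (∀ t, (D t R).ncard = c t) → Elim R) (by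
      intro c hc R hR h hcard
      rcases R.eq_empty_or_nonempty with rfl | hne
      · exact Elim.empty
      -- an element of minimal level
      classical
      have hex : ∃ j, ∃ ρ ∈ R, Lv j ρ := by
        obtain ⟨ρ, hρ⟩ := hne
        obtain ⟨t, -, ht⟩ := exists_lv (h ρ hρ)
        exact ⟨t, ρ, hρ, ht⟩
      obtain ⟨ρ, hρR, hρ⟩ := Nat.find_spec hex
      have hjmin : ∀ τ ∈ R, ∃ u, Nat.find hex ≤ u ∧ Lv u τ := by
        intro τ hτ
        obtain ⟨t, -, ht⟩ := exists_lv (h τ hτ)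
        exact ⟨t, Nat.find_min' hex ⟨τ, hτ, ht⟩, ht⟩
      have hjs : Nat.find hex ≤ s := by
        obtain ⟨t, hts, ht⟩ := exists_lv (h ρ hρR)
        exact (Nat.find_min' hex ⟨ρ, hρR, ht⟩).trans hts
      generalize Nat.find hex = j at hρ hjmin hjs
      refine Elim.step R ρ hρR fun L hL => ?_
      refine hc (fun t => (D t (Rst L R ρ)).ncard) ⟨j, hjs, ?_, ?_⟩ (Rst L R ρ)
        (Rst_finite hL hR ρ) ?_ (fun t => rfl)
      · rw [← hcard j]
        exact D_card hR hρR hρ hjmin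
      · intro t ht
        rw [← hcard t]
        exact Set.ncard_le_ncard (D_subset ht hρ.1 hjmin) (D_finite t hR)
      · rintro σ ⟨g, hg, τ, hτ, -, rfl⟩ l
        exact conj_mem g _ _ (h τ hτ l) (h ρ hρR l))
  exact key (fun t => (D t R).ncard) R hR h (fun t => rfl)

end Pool.Agent.W_cae956_nil
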