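import Mathlib
import Pool.Agent.W_cae956_nil.Elim

set_option autoImplicit false

/-!
# The covering lemma
-/

open MeasureTheory
open scoped ENNReal

namespace Pool.Agent.W_cae956_nil

section trans

variable {X : Type*} [TopologicalSpace X] {G : Type*} [Group G] (φ : G →* (X ≃ₜ X))

theorem phi_mul (a b : G) (x : X) : φ (a * b) x = φ a (φ b x) := by
  rw [map_mul]
  rfl

theorem phi_one (x : X) : φ 1 x = x := by
  rw [map_one]
  rfl

theorem one_step (T : G)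
    (r : ℕ) (htt : ∃ y : X, Dense (Set.range fun n : ℤ => φ (T ^ ((r : ℤ) * n)) y))
    (h : G) (V W : Set X) (hV : IsOpen V) (hVne : V.Nonempty) (hW : IsOpen W) (hWne : W.Nonempty) :
    ∃ n : ℤ, (r : ℤ) ∣ n ∧ ∃ x ∈ W, φ (h * T ^ n * h⁻¹) x ∈ V := by
  obtain ⟨y, hy⟩ := htt
  have h1 : ((φ h) ⁻¹' W).Nonempty := hWne.preimage (φ h).surjective
  have h2 : ((φ h) ⁻¹' V).Nonempty := hVne.preimage (φ h).surjective
  obtain ⟨_, hz1, m1, rfl⟩ := hy.inter_open_nonempty _ (hW.preimage (φ h).continuous) h1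
  obtain ⟨_, hz2, m2, rfl⟩ := hy.inter_open_nonempty _ (hV.preimage (φ h).continuous) h2
  refine ⟨(r : ℤ) * (m2 - m1), ⟨m2 - m1, rfl⟩, _, hz1, ?_⟩
  simp only [Set.mem_preimage] at hz2
  have e : h * T ^ ((r : ℤ) * (m2 - m1)) * h⁻¹ * h * T ^ ((r : ℤ) * m1) =
      h * T ^ ((r : ℤ) * m2) := by
    rw [mul_sub, zpow_sub]
    group
  rw [← phi_mul, ← phi_mul, e, phi_mul]
  exact hz2

theorem joint_step (T : G)
    (r : ℕ) (htt : ∃ y : X, Dense (Set.range fun n : ℤ => φ (T ^ ((r : ℤ) * n)) y))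
    {J : Type} [DecidableEq J] (h : J → G) (V : J → Set X) (hV : ∀ j, IsOpen (V j))
    (hVne : ∀ j, (V j).Nonempty) (s : Finset J) (W : Set X) (hW : IsOpen W) (hWne : W.Nonempty) :
    ∃ n : J → ℤ, (∀ j, (r : ℤ) ∣ n j) ∧
      ∃ x ∈ W, ∀ j ∈ s, φ (h j * T ^ (n j) * (h j)⁻¹) x ∈ V j := by
  induction s using Finset.induction_on with
  | empty =>
    obtain ⟨x, hx⟩ := hWne
    exact ⟨fun _ => 0, fun _ => dvd_zero _, x, hx, fun j hj => by simp at hj⟩
  | insert a s has ih =>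
    obtain ⟨n, hn, x, hx, hxs⟩ := ih
    set W' : Set X := W ∩ ⋂ j ∈ s, (φ (h j * T ^ (n j) * (h j)⁻¹)) ⁻¹' (V j) with hW'
    have hW'o : IsOpen W' := hW.inter
      (isOpen_biInter_finset fun j _ => (hV j).preimage (φ _).continuous)
    have hW'ne : W'.Nonempty := ⟨x, hx, Set.mem_iInter₂.2 fun j hj => hxs j hj⟩
    obtain ⟨m, hm, x', hx', hx'V⟩ := one_step φ T r htt (h a) (V a) W' (hV a) (hVne a) hW'o hW'ne
    refine ⟨Function.update n a m, ?_, x', hx'.1, ?_⟩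
    · intro j
      by_cases hj : j = a
      · subst hj; simpa using hm
      · simpa [Function.update_of_ne hj] using hn j
    · intro j hj
      by_cases hja : j = a
      · subst hja; simpa using hx'V
      · have hjs : j ∈ s := by
          rcases Finset.mem_insert.1 hj with h1 | h1
          · exact absurd h1 hja
          · exact h1
        rw [Function.update_of_ne hja]
        exact Set.mem_iInter₂.1 hx'.2 j hjs

/-- the set of points hitting all the `V j` -/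
def Hit (T : G) {J : Type} (ρ : J → ℤ → G) (h : J → G) (V : J → Set X) (n : J → ℤ) (l : ℤ)
    (g : G) : Set X :=
  {x | ∀ j, φ (h j * T ^ (n j) * (h j)⁻¹ * ρ j l * g) x ∈ V j}

theorem Hit_open (T : G) {J : Type} [Finite J] (ρ : J → ℤ → G) (h : J → G) (V : J → Set X)
    (hV : ∀ j, IsOpen (V j)) (n : J → ℤ) (l : ℤ) (g : G) : IsOpen (Hit φ T ρ h V n l g) := by
  have : Hit φ T ρ h V n l g =
      ⋂ j, (φ (h j * T ^ (n j) * (h j)⁻¹ * ρ j l * g)) ⁻¹' (V j) := by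
    ext x
    simp [Hit]
  rw [this]
  exact isOpen_iInter_of_finite fun j => (hV j).preimage (φ _).continuous

end trans

variable {X : Type} [MetricSpace X] [CompactSpace X] {G : Type} [Group G] (φ : G →* (X ≃ₜ X))

theorem exists_cover (hmin : ∀ x : X, Dense (Set.range fun g : G => φ g x)) (O : Set X)
    (hO : IsOpen O) (hne : O.Nonempty) : ∃ L : Set G, L.Finite ∧ ∀ x, ∃ g ∈ L, φ g⁻¹ x ∈ O := by
  have hcov : (Set.univ : Set X) ⊆ ⋃ g : G, (φ g) ⁻¹' O := by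
    intro x _
    obtain ⟨_, hyO, g, rfl⟩ := (hmin x).inter_open_nonempty O hO hne
    exact Set.mem_iUnion.2 ⟨g, hyO⟩
  obtain ⟨t, ht⟩ := isCompact_univ.elim_finite_subcover _
    (fun g : G => hO.preimage (φ g).continuous) hcov
  refine ⟨(fun g => g⁻¹) '' (t : Set G), t.finite_toSet.image _, fun x => ?_⟩
  obtain ⟨g, hg⟩ := Set.mem_iUnion.1 (ht (Set.mem_univ x))
  obtain ⟨hgt, hx⟩ := Set.mem_iUnion.1 hg
  exact ⟨g⁻¹, ⟨g, hgt, rfl⟩, by simpa using hx⟩

theorem cover [MeasurableSpace X] [BorelSpace X]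
    (hmin : ∀ x : X, Dense (Set.range fun g : G => φ g x)) (T : G)
    (htt : ∀ r : ℕ, 0 < r → ∃ y : X, Dense (Set.range fun n : ℤ => φ (T ^ ((r : ℤ) * n)) y))
    (N : Subgroup G) [N.Normal] (ν : Measure X) [IsProbabilityMeasure ν]
    (hν : ∀ g ∈ N, MeasurePreserving (φ g) ν ν)
    (Good : Set ℤ → Prop)
    (hext : ∀ F, Good F → ∀ d : ℕ, ∃ r : ℕ, 0 < r ∧ ∀ n : Fin d → ℤ, (∀ i, (r : ℤ) ∣ n i) →
      Good (F ∪ Set.range n))
    (R : Set (ℤ → G)) (hR : Elim R) :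
    (∀ ρ ∈ R, ∀ l, ρ l ∈ N) → ∀ (J : Type) [Fintype J] (ρ : J → ℤ → G) (h : J → G)
      (V : J → Set X), Set.range ρ = R → (∀ j, IsOpen (V j)) → (∀ j, (V j).Nonempty) →
      ∀ F0, Good F0 → ∃ (I : Type) (_ : Fintype I) (g : I → G) (n : I → J → ℤ) (F : Set ℤ),
        Good F ∧ F0 ⊆ F ∧ (∀ i j, n i j ∈ F) ∧
        ∀ l : ℤ, 1 ≤ ∑ i, ν (Hit φ T ρ h V (n i) l (g i)) := by
  induction hR with
  | empty =>
    intro _ J _ ρ h V hρ _ _ F0 hF0
    have hJ : IsEmpty J := Set.range_eq_empty_iff.1 hρ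
    refine ⟨Unit, inferInstance, fun _ => 1, fun _ j => (hJ.false j).elim, F0, hF0,
      subset_rfl, fun _ j => (hJ.false j).elim, fun l => ?_⟩
    have : Hit φ T ρ h V (fun j => (hJ.false j).elim) l 1 = Set.univ := by
      ext x
      simp only [Hit, Set.mem_setOf_eq, Set.mem_univ, iff_true]
      exact fun j => (hJ.false j).elim
    simp only [Finset.univ_unique, Finset.sum_singleton]
    rw [this, measure_univ]
  | step R ρ₁ hρ₁ hel ih =>
    intro hN J _ ρ h V hρ hVo hVne F0 hF0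
    classical
    obtain ⟨r, hr, hr2⟩ := hext F0 hF0 (Fintype.card J)
    have hXne : (Set.univ : Set X).Nonempty := by
      obtain ⟨j, _⟩ : ρ₁ ∈ Set.range ρ := by rw [hρ]; exact hρ₁
      obtain ⟨x, _⟩ := hVne j
      exact ⟨x, trivial⟩
    obtain ⟨n, hn, x0, _, hx0⟩ := joint_step φ T r (htt r hr) h V hVo hVne
      (Finset.univ.filter fun j => ρ j = ρ₁) Set.univ isOpen_univ hXne
    set O : Set X := ⋂ j ∈ (Finset.univ.filter fun j => ρ j = ρ₁),
      (φ (h j * T ^ (n j) * (h j)⁻¹)) ⁻¹' (V j) with hOdef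
    have hO : IsOpen O := isOpen_biInter_finset fun j _ => (hVo j).preimage (φ _).continuous
    have hOne : O.Nonempty := ⟨x0, Set.mem_iInter₂.2 fun j hj => hx0 j hj⟩
    obtain ⟨L, hL, hLcov⟩ := exists_cover φ hmin O hO hOne
    have hLf : Fintype L := hL.fintype
    -- the new family
    let J' : Type := L × {j : J // ρ j ≠ ρ₁}
    let ρ' : J' → ℤ → G := fun a l => (a.1 : G) * (ρ a.2 l * (ρ₁ l)⁻¹) * (a.1 : G)⁻¹
    let h' : J' → G := fun a => (a.1 : G) * h a.2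
    let V' : J' → Set X := fun a => (φ (a.1 : G)⁻¹) ⁻¹' (V a.2)
    let e := (Fintype.equivFin J).symm
    have hF1 : Good (F0 ∪ Set.range n) := by
      have h1 := hr2 (fun i => n (e i)) (fun i => hn _)
      have h2 : Set.range (fun i => n (e i)) = Set.range n := e.surjective.range_comp n
      rwa [h2] at h1
    obtain ⟨I', hI', g', n', F, hF, hF0F, hnF, hsum⟩ := ih L hL
      (by
        rintro σ ⟨g, _, τ, hτ, _, rfl⟩ l
        exact (inferInstance : N.Normal).conj_mem _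
          (N.mul_mem (hN τ hτ l) (N.inv_mem (hN ρ₁ hρ₁ l))) g)
      J' ρ' h' V'
      (by
        ext σ
        constructor
        · rintro ⟨⟨g, j⟩, rfl⟩
          exact ⟨g, g.2, ρ j, by rw [← hρ]; exact ⟨_, rfl⟩, j.2, rfl⟩
        · rintro ⟨g, hg, τ, hτ, hne, rfl⟩
          rw [← hρ] at hτ
          obtain ⟨j, rfl⟩ := hτ
          exact ⟨⟨⟨g, hg⟩, ⟨j, hne⟩⟩, rfl⟩)
      (fun a => (hVo _).preimage (φ _).continuous)
      (fun a => (hVne _).preimage (φ _).surjective) (F0 ∪ Set.range n) hF1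
    let nn : I' × L → J → ℤ := fun b j =>
      if hj : ρ j = ρ₁ then n j else n' b.1 (b.2, ⟨j, hj⟩)
    refine ⟨I' × L, inferInstance, fun b => (b.2 : G)⁻¹ * g' b.1, nn, F, hF,
      Set.subset_union_left.trans hF0F, ?_, ?_⟩
    · rintro ⟨i, g⟩ j
      simp only [nn]
      split_ifs with hj
      · exact hF0F (Or.inr ⟨j, rfl⟩)
      · exact hnF _ _
    intro l
    refine (hsum l).trans ?_
    rw [Fintype.sum_prod_type]
    refine Finset.sum_le_sum fun i _ => ?_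
    -- the sets `Y g`
    let c : L → G := fun g => ((g : G)⁻¹ * g' i)⁻¹ * (ρ₁ l)⁻¹ * ((g : G)⁻¹ * g' i)
    have hc : ∀ g, c g ∈ N := by
      intro g
      have := (inferInstance : N.Normal).conj_mem _ (N.inv_mem (hN ρ₁ hρ₁ l))
        (((g : G)⁻¹ * g' i)⁻¹)
      rwa [inv_inv] at this
    have hsub : Hit φ T ρ' h' V' (n' i) l (g' i) ⊆
        ⋃ g : L, (φ (c g)) ⁻¹' (Hit φ T ρ h V (nn (i, g)) l ((g : G)⁻¹ * g' i)) := by
      intro x hx
      obtain ⟨g, hg, hgO⟩ := hLcov (φ (g' i) x)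
      refine Set.mem_iUnion.2 ⟨⟨g, hg⟩, ?_⟩
      intro j
      rw [← phi_mul] at hgO ⊢
      by_cases hj : ρ j = ρ₁
      · have h1 := Set.mem_iInter₂.1 hgO j (Finset.mem_filter.2 ⟨Finset.mem_univ _, hj⟩)
        simp only [nn, hj, dif_pos, c]
        have h2 : h j * T ^ n j * (h j)⁻¹ * ρ₁ l * (g⁻¹ * g' i) *
            ((g⁻¹ * g' i)⁻¹ * (ρ₁ l)⁻¹ * (g⁻¹ * g' i)) =
            h j * T ^ n j * (h j)⁻¹ * (g⁻¹ * g' i) := by group
        rw [h2, phi_mul]
        exact h1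
      · have h1 := hx (⟨g, hg⟩, ⟨j, hj⟩)
        simp only [nn, hj, dif_neg, not_false_iff, c]
        have h2 : h j * T ^ n' i (⟨g, hg⟩, ⟨j, hj⟩) * (h j)⁻¹ * ρ j l * (g⁻¹ * g' i) *
            ((g⁻¹ * g' i)⁻¹ * (ρ₁ l)⁻¹ * (g⁻¹ * g' i)) =
            g⁻¹ * (g * h j * T ^ n' i (⟨g, hg⟩, ⟨j, hj⟩) * (g * h j)⁻¹ *
              (g * (ρ j l * (ρ₁ l)⁻¹) * g⁻¹) * g' i) := by group
        rw [h2, phi_mul]
        exact h1
    calc ν (Hit φ T ρ' h' V' (n' i) l (g' i))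
        ≤ ν (⋃ g : L, (φ (c g)) ⁻¹' (Hit φ T ρ h V (nn (i, g)) l ((g : G)⁻¹ * g' i))) :=
          measure_mono hsub
      _ ≤ ∑ g : L, ν ((φ (c g)) ⁻¹' (Hit φ T ρ h V (nn (i, g)) l ((g : G)⁻¹ * g' i))) :=
          measure_iUnion_fintype_le _ _
      _ = ∑ g : L, ν (Hit φ T ρ h V (nn (i, g)) l ((g : G)⁻¹ * g' i)) := by
          refine Finset.sum_congr rfl fun g _ => ?_
          exact (hν _ (hc g)).measure_preimage
            (Hit_open φ T ρ h V hVo _ l _).measurableSet.nullMeasurableSet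

end Pool.Agent.W_cae956_nil
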