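import Mathlib
import Pool.Agent.W_cae956_h75.LS

set_option autoImplicit false

/-!
# Good sets of integers for a polynomial
-/

open Polynomial

namespace Pool.Agent.W_cae956_nil

/-- `F` is finite, contains `0`, and for every prime `q` some `q`-adic translate `w + F` consists of
values of `P` at nonsingular points. -/
def Good (P : ℤ[X]) (F : Set ℤ) : Prop :=
  F.Finite ∧ (0 : ℤ) ∈ F ∧ ∀ (q : ℕ) [Fact q.Prime], ∃ w : ℤ_[q], ∀ n ∈ F, ∃ z : ℤ_[q],
    Polynomial.aeval z P = w + (n : ℤ_[q]) ∧ Polynomial.aeval z (derivative P) ≠ 0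

/-- Hensel's lemma for values of an integer polynomial -/
theorem Good_hensel (P : ℤ[X]) (q : ℕ) [hq : Fact q.Prime] (w z0 : ℤ_[q])
    (h : ‖Polynomial.aeval z0 P - w‖ < ‖Polynomial.aeval z0 (derivative P)‖ ^ 2) :
    ∃ z : ℤ_[q], Polynomial.aeval z P = w ∧ Polynomial.aeval z (derivative P) ≠ 0 := by
  set F : ℤ_[q][X] := P.map (algebraMap ℤ ℤ_[q]) - C w with hF
  have hFe : ∀ x : ℤ_[q], Polynomial.aeval x F = Polynomial.aeval x P - w := by
    intro x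
    rw [hF, map_sub, Polynomial.aeval_map_algebraMap, Polynomial.aeval_C]
    simp
  have hFd : ∀ x : ℤ_[q], Polynomial.aeval x (derivative F) =
      Polynomial.aeval x (derivative P) := by
    intro x
    rw [hF, derivative_sub, derivative_C, sub_zero, derivative_map,
      Polynomial.aeval_map_algebraMap]
  obtain ⟨z, hz, -, hz2, -⟩ := hensels_lemma (F := F) (a := z0) (by rw [hFe, hFd]; exact h)
  refine ⟨z, ?_, ?_⟩
  · rw [hFe] at hz
    exact sub_eq_zero.1 hz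
  · intro h0
    rw [hFd, hFd, h0, norm_zero] at hz2
    rw [← hz2] at h
    have h1 := norm_nonneg (Polynomial.aeval z0 P - w)
    norm_num at h
    exact absurd h (not_lt.2 h1)

theorem Good_aeval_int (P : ℤ[X]) (q : ℕ) [hq : Fact q.Prime] (x : ℤ) :
    Polynomial.aeval (x : ℤ_[q]) P = ((P.eval x : ℤ) : ℤ_[q]) := by
  have h1 : (x : ℤ_[q]) = algebraMap ℤ ℤ_[q] x := by simp
  rw [h1, Polynomial.aeval_algebraMap_apply]
  simp

theorem good_zero (P : ℤ[X]) (hP : 0 < P.natDegree) : Good P {0} := by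
  refine ⟨Set.finite_singleton 0, Set.mem_singleton 0, ?_⟩
  intro q hq
  obtain ⟨z0, hz0⟩ := Pool.Agent.W_cae956_h75.LS_exists_deriv P hP
  refine ⟨((P.eval z0 : ℤ) : ℤ_[q]), ?_⟩
  intro n hn
  rw [Set.mem_singleton_iff] at hn
  subst hn
  refine ⟨(z0 : ℤ_[q]), ?_, ?_⟩
  · rw [Good_aeval_int]
    simp
  · rw [Good_aeval_int]
    exact_mod_cast hz0

/-- small primes: keep `w`, and use Hensel's lemma near the solution of `P z = w` -/
theorem Good_small (P : ℤ[X]) (q : ℕ) [hq : Fact q.Prime] (w z : ℤ_[q])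
    (hz : Polynomial.aeval z P = w) (hz' : Polynomial.aeval z (derivative P) ≠ 0) :
    ∃ e : ℕ, ∀ n : ℤ, ((q ^ e : ℕ) : ℤ) ∣ n → ∃ z' : ℤ_[q],
      Polynomial.aeval z' P = w + (n : ℤ_[q]) ∧ Polynomial.aeval z' (derivative P) ≠ 0 := by
  have h1 : 0 < ‖Polynomial.aeval z (derivative P)‖ ^ 2 := by
    have := norm_pos_iff.2 hz'
    positivity
  obtain ⟨e, he⟩ := PadicInt.exists_pow_neg_lt q h1
  refine ⟨e, ?_⟩
  intro n hn
  refine Good_hensel P q _ z ?_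
  rw [hz]
  have h2 : w - (w + (n : ℤ_[q])) = -(n : ℤ_[q]) := by ring
  rw [h2, norm_neg]
  have h3 : ‖(n : ℤ_[q])‖ ≤ (q : ℝ) ^ (-e : ℤ) := by
    rw [PadicInt.norm_int_le_pow_iff_dvd]
    exact_mod_cast hn
  exact lt_of_le_of_lt h3 he

/-- large primes -/
theorem Good_large (P : ℤ[X]) (q : ℕ) [hq : Fact q.Prime] (k : ℕ) (n : Fin k → ℤ)
    (h : ∃ (w : ZMod q) (z : Fin k → ZMod q), ∀ i,
        (P.map (Int.castRingHom (ZMod q))).eval (z i) = w + (n i : ZMod q) ∧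
        ((derivative P).map (Int.castRingHom (ZMod q))).eval (z i) ≠ 0) :
    ∃ w : ℤ_[q], ∀ i, ∃ z : ℤ_[q],
      Polynomial.aeval z P = w + (n i : ℤ_[q]) ∧ Polynomial.aeval z (derivative P) ≠ 0 := by
  obtain ⟨wq, zq, hzq⟩ := h
  obtain ⟨w, hw⟩ := ZMod.intCast_surjective wq
  refine ⟨(w : ℤ_[q]), ?_⟩
  intro i
  obtain ⟨x, hx⟩ := ZMod.intCast_surjective (zq i)
  obtain ⟨h1, h2⟩ := hzq i
  rw [← hx, ← hw] at h1
  rw [← hx] at h2
  refine Good_hensel P q _ (x : ℤ_[q]) ?_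
  have e1 : (q : ℤ) ∣ P.eval x - (w + n i) := by
    rw [← ZMod.intCast_zmod_eq_zero_iff_dvd]
    rw [← eq_intCast (Int.castRingHom (ZMod q)) x, Polynomial.eval_map_apply] at h1
    push_cast
    rw [sub_eq_zero]
    simpa using h1
  have e2 : ¬ (q : ℤ) ∣ (derivative P).eval x := by
    rw [← ZMod.intCast_zmod_eq_zero_iff_dvd]
    rw [← eq_intCast (Int.castRingHom (ZMod q)) x, Polynomial.eval_map_apply] at h2
    simpa using h2
  have e3 := (PadicInt.norm_int_lt_one_iff_dvd (p := q) _).2 e1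
  have e4 : ‖(((derivative P).eval x : ℤ) : ℤ_[q])‖ = 1 := by
    refine le_antisymm (PadicInt.norm_le_one _) ?_
    by_contra hcon
    push Not at hcon
    exact e2 ((PadicInt.norm_int_lt_one_iff_dvd (p := q) _).1 hcon)
  rw [Good_aeval_int, Good_aeval_int, e4, one_pow]
  have e5 : ((P.eval x : ℤ) : ℤ_[q]) - ((w : ℤ_[q]) + (n i : ℤ_[q])) =
      ((P.eval x - (w + n i) : ℤ) : ℤ_[q]) := by push_cast; ring
  rw [e5]
  exact e3

/-- Extension: large primes by `LSLarge` for `F.ncard + d` constants and Hensel's lemma; for a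
small prime `q` keep `w` and solve `P z = w + n i`, `n i` divisible by a high power of `q`, near the
solution of `P z = w` by Hensel's lemma. -/
theorem good_ext (P : ℤ[X]) (hP : 0 < P.natDegree) (hL : Pool.Agent.W_cae956_h75.LSLarge P)
    (F : Set ℤ) (hF : Good P F) (d : ℕ) :
    ∃ r : ℕ, 0 < r ∧ ∀ n : Fin d → ℤ, (∀ i, (r : ℤ) ∣ n i) → Good P (F ∪ Set.range n) := by
  obtain ⟨hfin, h0, hloc⟩ := hF
  obtain ⟨N, hN⟩ := hL (F.ncard + d)
  -- exponents for small primes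
  have hsm : ∀ q : ℕ, ∃ e : ℕ, ∀ _ : Fact q.Prime, ∃ w : ℤ_[q],
      (∀ n ∈ F, ∃ z : ℤ_[q], Polynomial.aeval z P = w + (n : ℤ_[q]) ∧
        Polynomial.aeval z (derivative P) ≠ 0) ∧
      ∀ n : ℤ, ((q ^ e : ℕ) : ℤ) ∣ n → ∃ z' : ℤ_[q],
        Polynomial.aeval z' P = w + (n : ℤ_[q]) ∧ Polynomial.aeval z' (derivative P) ≠ 0 := by
    intro q
    by_cases hq : q.Prime
    · haveI : Fact q.Prime := ⟨hq⟩
      obtain ⟨w, hw⟩ := hloc q
      obtain ⟨z, hz, hz'⟩ := hw 0 h0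
      rw [Int.cast_zero, add_zero] at hz
      obtain ⟨e, he⟩ := Good_small P q w z hz hz'
      exact ⟨e, fun _ => ⟨w, hw, he⟩⟩
    · exact ⟨0, fun h => absurd h.out hq⟩
  choose e he using hsm
  refine ⟨∏ q ∈ (Finset.range (N + 1)).filter Nat.Prime, q ^ e q, ?_, ?_⟩
  · refine Finset.prod_pos fun q hq => ?_
    exact pow_pos (Finset.mem_filter.1 hq).2.pos _
  intro n hn
  refine ⟨hfin.union (Set.finite_range n), Or.inl h0, ?_⟩
  intro q hq
  by_cases hqN : q ≤ N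
  · obtain ⟨w, hw1, hw2⟩ := he q hq
    refine ⟨w, ?_⟩
    rintro m (hm | ⟨i, rfl⟩)
    · exact hw1 m hm
    · refine hw2 (n i) (dvd_trans ?_ (hn i))
      exact_mod_cast Finset.dvd_prod_of_mem (fun q => q ^ e q)
        (Finset.mem_filter.2 ⟨Finset.mem_range.2 (by omega), hq.out⟩)
  · push Not at hqN
    -- enumerate `F`
    obtain ⟨f, hf⟩ : ∃ f : Fin F.ncard → ℤ, ∀ m ∈ F, ∃ i, f i = m := by
      haveI : Finite F := hfin
      have hc : Nat.card F = F.ncard := rfl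
      let E := (Finite.equivFin F).trans (finCongr hc)
      refine ⟨fun i => (E.symm i : F).1, ?_⟩
      intro m hm
      exact ⟨E ⟨m, hm⟩, by simp⟩
    have h1 := hN q hq.out hqN (fun i => ((Fin.append f n i : ℤ) : ZMod q))
    obtain ⟨w, hw⟩ := Good_large P q (F.ncard + d) (Fin.append f n) h1
    refine ⟨w, ?_⟩
    rintro m (hm | ⟨i, rfl⟩)
    · obtain ⟨i, rfl⟩ := hf m hm
      have h2 := hw (Fin.castAdd d i)
      rwa [Fin.append_left] at h2
    · have h2 := hw (Fin.natAdd F.ncard i)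
      rwa [Fin.append_right] at h2

/-- gluing -/
theorem Good_glue (P : ℤ[X]) (F : Set ℤ)
    (h : ∀ q e : ℕ, q.Prime → ∃ w : ℤ, ∀ n ∈ F, ∃ z : ℤ,
      ((q ^ e : ℕ) : ℤ) ∣ P.eval z - (w + n)) (Q : ℕ) :
    0 < Q → ∃ w : ℤ, ∀ n ∈ F, ∃ z : ℤ, (Q : ℤ) ∣ P.eval z - (w + n) := by
  induction Q using Nat.recOnPosPrimePosCoprime with
  | prime_pow q e hq he => exact fun _ => h q e hq
  | zero => exact fun h0 => absurd h0 (lt_irrefl 0)
  | one => exact fun _ => ⟨0, fun _ _ => ⟨0, by simp⟩⟩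
  | coprime a b ha hb hab iha ihb =>
    intro _
    obtain ⟨w1, h1⟩ := iha (by omega)
    obtain ⟨w2, h2⟩ := ihb (by omega)
    obtain ⟨f, hf⟩ := Pool.Agent.W_cae956_h75.LS_crt a b hab
    refine ⟨f w1 w2, fun n hn => ?_⟩
    obtain ⟨z1, hz1⟩ := h1 n hn
    obtain ⟨z2, hz2⟩ := h2 n hn
    refine ⟨f z1 z2, ?_⟩
    have hd1 : (a : ℤ) ∣ P.eval (f z1 z2) - (f w1 w2 + n) := by
      have e1 := ((hf z1 z2).1).trans (Polynomial.sub_dvd_eval_sub _ _ P)
      have e2 := (hf w1 w2).1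
      have e3 := dvd_sub (dvd_add e1 hz1) e2
      have e4 : P.eval (f z1 z2) - (f w1 w2 + n) =
          P.eval (f z1 z2) - P.eval z1 + (P.eval z1 - (w1 + n)) - (f w1 w2 - w1) := by ring
      rwa [e4]
    have hd2 : (b : ℤ) ∣ P.eval (f z1 z2) - (f w1 w2 + n) := by
      have e1 := ((hf z1 z2).2).trans (Polynomial.sub_dvd_eval_sub _ _ P)
      have e2 := (hf w1 w2).2
      have e3 := dvd_sub (dvd_add e1 hz2) e2
      have e4 : P.eval (f z1 z2) - (f w1 w2 + n) =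
          P.eval (f z1 z2) - P.eval z2 + (P.eval z2 - (w2 + n)) - (f w1 w2 - w2) := by ring
      rwa [e4]
    rw [Nat.cast_mul]
    exact IsCoprime.mul_dvd (Nat.isCoprime_iff_coprime.2 hab) hd1 hd2

theorem good_solve (P : ℤ[X]) (F : Set ℤ) (hF : Good P F) (Q : ℕ) (hQ : 0 < Q) :
    ∃ w : ℤ, ∀ n ∈ F, ∃ z : ℤ, (Q : ℤ) ∣ P.eval z - (w + n) := by
  obtain ⟨hfin, h0, hloc⟩ := hF
  refine Good_glue P F ?_ Q hQ
  intro q e hq
  haveI : Fact q.Prime := ⟨hq⟩
  obtain ⟨w, hw⟩ := hloc q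
  refine ⟨(PadicInt.appr w e : ℕ), ?_⟩
  intro n hn
  obtain ⟨z, hz, -⟩ := hw n hn
  refine ⟨(PadicInt.appr z e : ℕ), ?_⟩
  have h1 := PadicInt.appr_spec e w
  have h2 := PadicInt.appr_spec e z
  rw [Ideal.mem_span_singleton] at h1 h2
  have h3 : (z - ((PadicInt.appr z e : ℕ) : ℤ_[q])) ∣
      Polynomial.aeval z P - Polynomial.aeval ((PadicInt.appr z e : ℕ) : ℤ_[q]) P := by
    rw [← Polynomial.eval_map_algebraMap, ← Polynomial.eval_map_algebraMap]
    exact Polynomial.sub_dvd_eval_sub _ _ _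
  have h4 := h2.trans h3
  have h5 := dvd_sub h1 h4
  have h6 := Good_aeval_int P q ((PadicInt.appr z e : ℕ) : ℤ)
  rw [Int.cast_natCast] at h6
  rw [hz, h6] at h5
  have h7 : w - ((PadicInt.appr w e : ℕ) : ℤ_[q]) - (w + (n : ℤ_[q]) -
      ((P.eval ((PadicInt.appr z e : ℕ) : ℤ) : ℤ) : ℤ_[q])) =
      ((P.eval ((PadicInt.appr z e : ℕ) : ℤ) - (((PadicInt.appr w e : ℕ) : ℤ) + n) : ℤ) :
        ℤ_[q]) := by
    push_cast
    ring
  rw [h7] at h5
  have h8 := (PadicInt.norm_le_pow_iff_mem_span_pow _ e).2 (Ideal.mem_span_singleton.2 h5)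
  have h9 := (PadicInt.norm_int_le_pow_iff_dvd).1 h8
  exact_mod_cast h9

end Pool.Agent.W_cae956_nil
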