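import Mathlib

set_option autoImplicit false

/-!
# A probability measure invariant under a term of the upper central series

Proof. (1) If `ν` is invariant under a set `M` of homeomorphisms normalized by `g`
(i.e. `g⁻¹ h g ∈ M` for `h ∈ M`), then every image `(g ^ n)_* ν` is `M`-invariant, and a limit (along an
ultrafilter) of the averages `1 / (N + 1) * ∑ n ≤ N, (g ^ n)_* ν` is invariant under `M` and `g`.
`ProbabilityMeasure X` is compact (Mathlib.MeasureTheory.Measure.Prokhorov); compare
`exists_invariant` in Pool/Agent/W_cae956_h75/Inv.lean.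
(2) Induction on `s`, from `s` to `s + 1`: a set `M` of the form `Z_s ∪ F` generates a subgroup
between `Z_s` and `Z_(s+1)`, which is normal in `G`; so by (1) and induction on the finite set `F`,
for every finite `F ⊆ Z_(s+1)` there is a measure invariant under `Z_s` and `F`. The sets of these
measures are closed, nonempty and directed; take a point of the intersection (or an ultrafilter on
`Finset`).
-/

open MeasureTheory Filter Topology
open scoped ENNReal BoundedContinuousFunction

namespace Pool.Agent.W_cae956_nil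

section avg

variable {X : Type*} [MetricSpace X] [CompactSpace X] [MeasurableSpace X] [BorelSpace X]

/-- averages of the images of `ν` under the powers of `g` -/
noncomputable def meas_avg {G : Type*} [Group G] (φ : G →* (X ≃ₜ X)) (g : G) (ν : Measure X)
    (N : ℕ) : Measure X :=
  ((N : ℝ≥0∞) + 1)⁻¹ • ∑ n ∈ Finset.range (N + 1), Measure.map (φ (g ^ n)) ν

theorem meas_avg_prob {G : Type*} [Group G] (φ : G →* (X ≃ₜ X)) (g : G) (ν : Measure X)
    [IsProbabilityMeasure ν] (N : ℕ) : IsProbabilityMeasure (meas_avg φ g ν N) := by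
  have h : ∀ n : ℕ, IsProbabilityMeasure (Measure.map (φ (g ^ n)) ν) := fun n =>
    Measure.isProbabilityMeasure_map (φ (g ^ n)).continuous.measurable.aemeasurable
  constructor
  simp only [meas_avg, Measure.smul_apply, Measure.finsetSum_apply, smul_eq_mul]
  simp only [measure_univ, Finset.sum_const, Finset.card_range, nsmul_eq_mul, mul_one,
    Nat.cast_add, Nat.cast_one]
  apply ENNReal.inv_mul_cancel
  · simp
  · exact ENNReal.add_ne_top.2 ⟨ENNReal.natCast_ne_top N, ENNReal.one_ne_top⟩

theorem meas_integral {G : Type*} [Group G] (φ : G →* (X ≃ₜ X)) (g : G) (ν : Measure X)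
    [IsProbabilityMeasure ν] (N : ℕ) (f : X →ᵇ ℝ) :
    ∫ y, f y ∂(meas_avg φ g ν N) =
      (1 / ((N : ℝ) + 1)) * ∑ n ∈ Finset.range (N + 1), ∫ y, f (φ (g ^ n) y) ∂ν := by
  have h : ∀ n : ℕ, IsProbabilityMeasure (Measure.map (φ (g ^ n)) ν) := fun n =>
    Measure.isProbabilityMeasure_map (φ (g ^ n)).continuous.measurable.aemeasurable
  rw [meas_avg, integral_smul_measure, integral_finsetSum_measure]
  · simp only [smul_eq_mul]
    congr 1
    · rw [ENNReal.toReal_inv, one_div]
      congr 1
    · refine Finset.sum_congr rfl fun n _ => ?_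
      exact integral_map (φ (g ^ n)).continuous.measurable.aemeasurable
        f.continuous.measurable.aestronglyMeasurable
  · intro i _
    exact f.integrable _

theorem meas_step {G : Type*} [Group G] (φ : G →* (X ≃ₜ X)) (M : Set G) (g : G) (ν : Measure X)
    [IsProbabilityMeasure ν]
    (hM : ∀ n : ℕ, ∀ h ∈ M, Measure.map (φ ((g ^ n)⁻¹ * h * g ^ n)) ν = ν) :
    ∃ ν' : Measure X, IsProbabilityMeasure ν' ∧ (∀ h ∈ M, Measure.map (φ h) ν' = ν') ∧
      Measure.map (φ g) ν' = ν' := by
  have hpr := meas_avg_prob φ g ν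
  let P : ℕ → ProbabilityMeasure X := fun N => ⟨meas_avg φ g ν N, hpr N⟩
  let F : Ultrafilter (ProbabilityMeasure X) := (hyperfilter ℕ).map P
  have hF : Tendsto P (hyperfilter ℕ : Filter ℕ) (𝓝 F.lim) := F.le_nhds_lim
  set ν' : ProbabilityMeasure X := F.lim with hν'
  have hint := ProbabilityMeasure.tendsto_iff_forall_integral_tendsto.1 hF
  have hyp : (hyperfilter ℕ : Filter ℕ) ≤ atTop := by
    rw [← Nat.cofinite_eq_atTop]; exact hyperfilter_le_cofinite
  -- criterion
  have key : ∀ h : G, (∀ f : X →ᵇ ℝ, Tendsto (fun N : ℕ =>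
      ∫ y, f (φ h y) ∂(P N : Measure X) - ∫ y, f y ∂(P N : Measure X))
      (hyperfilter ℕ : Filter ℕ) (𝓝 0)) → Measure.map (φ h) (ν' : Measure X) = ν' := by
    intro h hh
    have : IsProbabilityMeasure (Measure.map (φ h) (ν' : Measure X)) :=
      Measure.isProbabilityMeasure_map (φ h).continuous.measurable.aemeasurable
    apply ext_of_forall_integral_eq_of_IsFiniteMeasure
    intro f
    rw [integral_map (φ h).continuous.measurable.aemeasurable
      f.continuous.measurable.aestronglyMeasurable]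
    have h1 := hint f
    have h2 := hint (f.compContinuous ⟨φ h, (φ h).continuous⟩)
    have h3 := tendsto_nhds_unique (h2.sub h1) (hh f)
    have h8 : ∫ y, (f.compContinuous ⟨φ h, (φ h).continuous⟩) y ∂(ν' : Measure X) =
        ∫ y, f y ∂(ν' : Measure X) := by linarith
    exact h8
  have hcomp : ∀ (h : G) (f : X →ᵇ ℝ) (N : ℕ), ∫ y, f (φ h y) ∂(P N : Measure X) =
      (1 / ((N : ℝ) + 1)) * ∑ n ∈ Finset.range (N + 1), ∫ y, f (φ (h * g ^ n) y) ∂ν := by
    intro h f N
    have h1 := meas_integral φ g ν N (f.compContinuous ⟨φ h, (φ h).continuous⟩)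
    refine Eq.trans h1 ?_
    congr 1
    refine Finset.sum_congr rfl fun n _ => ?_
    rw [map_mul]
    rfl
  refine ⟨ν', inferInstance, fun h hh => key h fun f => ?_, key g fun f => ?_⟩
  · have e : ∀ N : ℕ, ∫ y, f (φ h y) ∂(P N : Measure X) - ∫ y, f y ∂(P N : Measure X) = 0 := by
      intro N
      have e1 : ∫ y, f y ∂(P N : Measure X) = _ := meas_integral φ g ν N f
      rw [hcomp, e1, sub_eq_zero]
      congr 1
      refine Finset.sum_congr rfl fun n _ => ?_
      have e2 : h * g ^ n = g ^ n * ((g ^ n)⁻¹ * h * g ^ n) := by group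
      have e3 : ∫ y, f (φ (g ^ n) y) ∂(Measure.map (φ ((g ^ n)⁻¹ * h * g ^ n)) ν) =
          ∫ y, f (φ (g ^ n) y) ∂ν := by
        rw [hM n h hh]
      have e4 : ∫ y, f (φ (g ^ n) y) ∂(Measure.map (φ ((g ^ n)⁻¹ * h * g ^ n)) ν) =
          ∫ y, f (φ (g ^ n) (φ ((g ^ n)⁻¹ * h * g ^ n) y)) ∂ν :=
        integral_map (φ ((g ^ n)⁻¹ * h * g ^ n)).continuous.measurable.aemeasurable
          (f.continuous.comp (φ (g ^ n)).continuous).measurable.aestronglyMeasurable
      rw [← e3, e4]
      refine integral_congr_ae (Filter.Eventually.of_forall fun y => ?_)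
      show f (φ (h * g ^ n) y) = f (φ (g ^ n) (φ ((g ^ n)⁻¹ * h * g ^ n) y))
      conv_lhs => rw [e2, map_mul]
      rfl
    simp only [e]
    exact tendsto_const_nhds
  · have h4 : ∀ N : ℕ, ‖∫ y, f (φ g y) ∂(P N : Measure X) - ∫ y, f y ∂(P N : Measure X)‖ ≤
        (1 / ((N : ℝ) + 1)) * (2 * ‖f‖) := by
      intro N
      have e0 : ∫ y, f y ∂(P N : Measure X) = _ := meas_integral φ g ν N f
      rw [hcomp, e0, ← mul_sub]
      set u : ℕ → ℝ := fun n => ∫ y, f (φ (g ^ n) y) ∂ν with hu
      have e1 : ∑ n ∈ Finset.range (N + 1), ∫ y, f (φ (g * g ^ n) y) ∂ν =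
          ∑ n ∈ Finset.range (N + 1), u n + u (N + 1) - u 0 := by
        have a1 := Finset.sum_range_succ' u (N + 1)
        have a2 := Finset.sum_range_succ u (N + 1)
        have a3 : ∑ n ∈ Finset.range (N + 1), ∫ y, f (φ (g * g ^ n) y) ∂ν =
            ∑ n ∈ Finset.range (N + 1), u (n + 1) := by
          refine Finset.sum_congr rfl fun n _ => ?_
          rw [hu]
          simp only [pow_succ']
        rw [a3]
        linarith
      rw [e1, norm_mul, Real.norm_eq_abs, abs_of_nonneg (by positivity)]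
      apply mul_le_mul_of_nonneg_left _ (by positivity)
      have e2 : ∑ n ∈ Finset.range (N + 1), u n + u (N + 1) - u 0 -
          ∑ n ∈ Finset.range (N + 1), u n = u (N + 1) - u 0 := by ring
      rw [e2]
      have e3 : ∀ n, ‖u n‖ ≤ ‖f‖ := by
        intro n
        refine (norm_integral_le_of_norm_le_const (C := ‖f‖)
          (Filter.Eventually.of_forall fun y => f.norm_coe_le_norm _)).trans ?_
        simp
      calc _ ≤ ‖u (N + 1)‖ + ‖u 0‖ := norm_sub_le _ _
        _ ≤ ‖f‖ + ‖f‖ := add_le_add (e3 _) (e3 _)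
        _ = 2 * ‖f‖ := by ring
    have h5 : Tendsto (fun N : ℕ => (1 / ((N : ℝ) + 1)) * (2 * ‖f‖)) atTop (𝓝 0) := by
      have := (tendsto_one_div_add_atTop_nhds_zero_nat (𝕜 := ℝ)).mul_const (2 * ‖f‖)
      simpa using this
    exact squeeze_zero_norm h4 (h5.mono_left hyp)

theorem meas_fin {G : Type*} [Group G] (φ : G →* (X ≃ₜ X)) (s : ℕ)
    (ih : ∃ ν : Measure X, IsProbabilityMeasure ν ∧
      ∀ g ∈ Subgroup.upperCentralSeries G s, Measure.map (φ g) ν = ν) (F : Finset G) :
    (∀ g ∈ F, g ∈ Subgroup.upperCentralSeries G (s + 1)) →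
    ∃ ν : Measure X, IsProbabilityMeasure ν ∧
      (∀ g ∈ Subgroup.upperCentralSeries G s, Measure.map (φ g) ν = ν) ∧
      ∀ g ∈ F, Measure.map (φ g) ν = ν := by
  classical
  induction F using Finset.induction_on with
  | empty =>
    intro _
    obtain ⟨ν, h1, h2⟩ := ih
    exact ⟨ν, h1, h2, by simp⟩
  | insert g F hg ihF =>
    intro hF
    obtain ⟨ν, h1, h2, h3⟩ := ihF fun x hx => hF x (Finset.mem_insert_of_mem hx)
    obtain ⟨ν', h4, h5, h6⟩ := meas_step φ
      ((Subgroup.upperCentralSeries G s : Set G) ∪ (F : Set G)) g ν (by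
        rintro n h (hh | hh)
        · refine h2 _ ?_
          have hn : (Subgroup.upperCentralSeries G s).Normal := inferInstance
          have h7 := hn.conj_mem h hh (g ^ n)⁻¹
          rwa [inv_inv] at h7
        · have hh' : h ∈ F := by simpa using hh
          have hZ : h⁻¹ ∈ Subgroup.upperCentralSeries G (s + 1) :=
            inv_mem (hF h (Finset.mem_insert_of_mem hh'))
          have h7 := (Subgroup.mem_upperCentralSeries_succ_iff.1 hZ) (g ^ n)⁻¹
          rw [commutatorElement_def, inv_inv, inv_inv] at h7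
          have e : (g ^ n)⁻¹ * h * g ^ n = h * (h⁻¹ * (g ^ n)⁻¹ * h * g ^ n) := by group
          rw [e, map_mul]
          have e1 : ⇑(φ h * φ (h⁻¹ * (g ^ n)⁻¹ * h * g ^ n)) =
              ⇑(φ h) ∘ ⇑(φ (h⁻¹ * (g ^ n)⁻¹ * h * g ^ n)) := rfl
          rw [e1, ← Measure.map_map (φ h).continuous.measurable
            (φ (h⁻¹ * (g ^ n)⁻¹ * h * g ^ n)).continuous.measurable, h2 _ h7, h3 h hh'])
    refine ⟨ν', h4, fun x hx => h5 x (Or.inl hx), fun x hx => ?_⟩
    rcases Finset.mem_insert.1 hx with rfl | hx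
    · exact h6
    · exact h5 x (Or.inr (by simpa using hx))

end avg

theorem exists_invariant_upper {X : Type*} [MetricSpace X] [CompactSpace X] [Nonempty X]
    [MeasurableSpace X] [BorelSpace X] {G : Type*} [Group G] (φ : G →* (X ≃ₜ X)) (s : ℕ) :
    ∃ ν : Measure X, IsProbabilityMeasure ν ∧
      ∀ g ∈ Subgroup.upperCentralSeries G s, MeasurePreserving (φ g) ν ν := by
  classical
  suffices h : ∃ ν : Measure X, IsProbabilityMeasure ν ∧
      ∀ g ∈ Subgroup.upperCentralSeries G s, Measure.map (φ g) ν = ν by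
    obtain ⟨ν, h1, h2⟩ := h
    exact ⟨ν, h1, fun g hg => ⟨(φ g).continuous.measurable, h2 g hg⟩⟩
  induction s with
  | zero =>
    obtain ⟨x⟩ := ‹Nonempty X›
    refine ⟨Measure.dirac x, inferInstance, fun g hg => ?_⟩
    rw [Subgroup.upperCentralSeries_zero, Subgroup.mem_bot] at hg
    rw [hg, map_one]
    exact Measure.map_id
  | succ s ih =>
    have hcl : ∀ g : G, IsClosed {ν : ProbabilityMeasure X |
        ν.map (φ g).continuous.measurable.aemeasurable = ν} := fun g =>
      isClosed_eq (ProbabilityMeasure.continuous_map (φ g).continuous) continuous_id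
    obtain ⟨ν, -, hν⟩ := isCompact_univ.inter_iInter_nonempty
      (fun g : Subgroup.upperCentralSeries G (s + 1) => {ν : ProbabilityMeasure X |
        ν.map (φ (g : G)).continuous.measurable.aemeasurable = ν})
      (fun g => hcl g) (fun u => by
        obtain ⟨ν, h1, h2, h3⟩ := meas_fin φ s ih (u.image fun g : Subgroup.upperCentralSeries G (s + 1) => (g : G)) (by
          intro g hg
          obtain ⟨g', -, rfl⟩ := Finset.mem_image.1 hg
          exact g'.2)
        refine ⟨⟨ν, h1⟩, Set.mem_univ _, ?_⟩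
        simp only [Set.mem_iInter]
        intro g hg
        apply Subtype.ext
        exact h3 _ (Finset.mem_image_of_mem _ hg))
    refine ⟨ν, inferInstance, fun g hg => ?_⟩
    have h1 := Set.mem_iInter.1 hν ⟨g, hg⟩
    exact congrArg Subtype.val h1

end Pool.Agent.W_cae956_nil
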