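import Mathlib
import Pool.Agent.W_cae956_nil.Cover
import Pool.Agent.W_cae956_nil.Fin2
import Pool.Agent.W_cae956_nil.Meas
import Pool.Agent.W_cae956_nil.Good
import Pool.Agent.W_cae956_h75.Main

set_option autoImplicit false

/-!
# The two-body theorem for hypercentral elements, and its consequence for generic points
-/

open Filter Topology MeasureTheory Polynomial
open scoped ENNReal

namespace Pool.Agent.W_cae956_nil

theorem two_body {X : Type} [MetricSpace X] [CompactSpace X] {G : Type} [Group G]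
    (φ : G →* (X ≃ₜ X)) (hmin : ∀ x : X, Dense (Set.range fun g : G => φ g x)) (T : G) (s : ℕ)
    (hs : T ∈ Subgroup.upperCentralSeries G s)
    (htt : ∀ r : ℕ, 0 < r → ∃ y : X, Dense (Set.range fun n : ℤ => φ (T ^ ((r : ℤ) * n)) y))
    (P : ℤ[X]) (hP : 0 < P.natDegree) (hL : Pool.Agent.W_cae956_h75.LSLarge P)
    (U V : Set X) (hU : IsOpen U) (hUne : U.Nonempty) (hV : IsOpen V) (hVne : V.Nonempty) :
    ∃ n : ℤ, ∃ x ∈ U, φ (T ^ (P.eval n)) x ∈ V := by
  classical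
  let _ : MeasurableSpace X := borel X
  have _ : BorelSpace X := ⟨rfl⟩
  have hXne : Nonempty X := ⟨hUne.some⟩
  by_contra hcon
  push Not at hcon
  obtain ⟨ν, hνp, hν⟩ := exists_invariant_upper φ s
  obtain ⟨L, hL', hLcov⟩ := exists_cover φ hmin U hU hUne
  have hLf : Fintype L := hL'.fintype
  set N : Subgroup G := Subgroup.upperCentralSeries G s with hN
  have hNn : N.Normal := inferInstance
  let ρ : L → ℤ → G := fun a l => (a : G) * T ^ l * (a : G)⁻¹
  let h : L → G := fun a => (a : G)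
  let V' : L → Set X := fun a => (φ (a : G)⁻¹) ⁻¹' V
  have hρN : ∀ a l, ρ a l ∈ N := fun a l => hNn.conj_mem _ (N.zpow_mem hs l) _
  have hR : Elim (Set.range ρ) := elim_of_finite s (Set.range ρ) (Set.finite_range ρ)
    (by rintro _ ⟨a, rfl⟩ l; exact hρN a l)
  obtain ⟨I, hI, g, n, F, hF, _, hnF, hsum⟩ := cover φ hmin T htt N ν hν (Good P)
    (fun F hF d => good_ext P hP hL F hF d) (Set.range ρ) hR
    (by rintro _ ⟨a, rfl⟩ l; exact hρN a l) L ρ h V' rfl
    (fun a => hV.preimage (φ _).continuous) (fun a => hVne.preimage (φ _).surjective)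
    {0} (good_zero P hP)
  let c : I × L → G := fun b => (b.2 : G)⁻¹ * g b.1
  let μ : I × L → Measure X := fun b => ν.map (φ (c b))
  have hμp : ∀ b, IsProbabilityMeasure (μ b) := fun b =>
    Measure.isProbabilityMeasure_map (φ (c b)).continuous.measurable.aemeasurable
  have hμT : ∀ b, MeasurePreserving (φ T) (μ b) (μ b) := by
    intro b
    refine ⟨(φ T).continuous.measurable, ?_⟩
    have h1 : (c b)⁻¹ * T * c b ∈ N := by
      have := hNn.conj_mem _ hs (c b)⁻¹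
      rwa [inv_inv] at this
    have h2 : ⇑(φ T) ∘ ⇑(φ (c b)) = ⇑(φ (c b)) ∘ ⇑(φ ((c b)⁻¹ * T * c b)) := by
      funext x
      simp only [Function.comp_apply]
      rw [← phi_mul, ← phi_mul]
      congr 2
      group
    show (ν.map (φ (c b))).map (φ T) = ν.map (φ (c b))
    rw [Measure.map_map (φ T).continuous.measurable (φ (c b)).continuous.measurable, h2,
      ← Measure.map_map (φ (c b)).continuous.measurable (φ _).continuous.measurable,
      (hν _ h1).map_eq]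
  refine Pool.Agent.W_cae956_nil.l2_finish (φ T) μ hμp hμT P hP U V hU.measurableSet
    hV.measurableSet ?_ (fun b => n b.1 b.2) ?_ ?_
  · intro m x hx hxV
    refine hcon m x hx ?_
    rw [map_zpow]
    exact hxV
  · intro Q hQ
    obtain ⟨w, hw⟩ := good_solve P F hF Q hQ
    exact ⟨w, fun b => hw _ (hnF _ _)⟩
  · intro l
    have hset : ∀ b : I × L, MeasurableSet (U ∩ (⇑((φ T) ^ (l + n b.1 b.2))) ⁻¹' V) :=
      fun b => hU.measurableSet.inter (hV.preimage ((φ T) ^ _).continuous).measurableSet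
    have h1 : (1 : ℝ≥0∞) ≤ ∑ b : I × L, μ b (U ∩ (⇑((φ T) ^ (l + n b.1 b.2))) ⁻¹' V) := by
      refine (hsum l).trans ?_
      rw [Fintype.sum_prod_type]
      refine Finset.sum_le_sum fun i _ => ?_
      have hsub : Hit φ T ρ h V' (n i) l (g i) ⊆
          ⋃ a : L, (φ (c (i, a))) ⁻¹' (U ∩ (⇑((φ T) ^ (l + n i a))) ⁻¹' V) := by
        intro x hx
        obtain ⟨a, ha, haU⟩ := hLcov (φ (g i) x)
        refine Set.mem_iUnion.2 ⟨⟨a, ha⟩, ?_, ?_⟩
        · rw [← phi_mul] at haU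
          exact haU
        · have h2 := hx ⟨a, ha⟩
          simp only [Set.mem_preimage, V', h, ρ] at h2 ⊢
          rw [← phi_mul] at h2
          rw [← map_zpow, ← phi_mul]
          have h3 : a⁻¹ * (a * T ^ n i ⟨a, ha⟩ * a⁻¹ * (a * T ^ l * a⁻¹) * g i) =
              T ^ (l + n i ⟨a, ha⟩) * (a⁻¹ * g i) := by
            rw [zpow_add, (Commute.zpow_zpow (Commute.refl T) l (n i ⟨a, ha⟩)).eq]
            group
          rw [h3] at h2
          exact h2
      calc ν (Hit φ T ρ h V' (n i) l (g i))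
          ≤ ν (⋃ a : L, (φ (c (i, a))) ⁻¹' (U ∩ (⇑((φ T) ^ (l + n i a))) ⁻¹' V)) :=
            measure_mono hsub
        _ ≤ ∑ a : L, ν ((φ (c (i, a))) ⁻¹' (U ∩ (⇑((φ T) ^ (l + n i a))) ⁻¹' V)) :=
            measure_iUnion_fintype_le _ _
        _ = ∑ a : L, μ (i, a) (U ∩ (⇑((φ T) ^ (l + n i a))) ⁻¹' V) := by
            refine Finset.sum_congr rfl fun a _ => ?_
            exact (Measure.map_apply (φ _).continuous.measurable (hset (i, a))).symm
    have h2 : ∑ b : I × L, (μ b).real (U ∩ (⇑((φ T) ^ (l + n b.1 b.2))) ⁻¹' V) =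
        (∑ b : I × L, μ b (U ∩ (⇑((φ T) ^ (l + n b.1 b.2))) ⁻¹' V)).toReal := by
      rw [ENNReal.toReal_sum (fun b _ => measure_ne_top _ _)]
      rfl
    rw [h2]
    have h3 : (∑ b : I × L, μ b (U ∩ (⇑((φ T) ^ (l + n b.1 b.2))) ⁻¹' V)) ≠ ⊤ :=
      (ENNReal.sum_lt_top.2 fun b _ => measure_lt_top _ _).ne
    have h4 := ENNReal.toReal_mono h3 h1
    simpa using h4

/-- hypercentral in a group acting minimally -/
def HyperMin {E : Type} [TopologicalSpace E] (T : E ≃ₜ E) : Prop :=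
  ∃ G : Subgroup (E ≃ₜ E), (∀ z : E, Dense {y : E | ∃ g ∈ G, g z = y}) ∧
    ∃ (s : ℕ) (h : T ∈ G), (⟨T, h⟩ : G) ∈ Subgroup.upperCentralSeries G s

theorem two_body' {E : Type} [MetricSpace E] [CompactSpace E] (T : E ≃ₜ E) (hH : HyperMin T)
    (htt : ∀ r : ℕ, 0 < r → ∃ y : E, Dense (Set.range fun n : ℤ => (T ^ ((r : ℤ) * n)) y))
    (P : ℤ[X]) (hP : 0 < P.natDegree) (hL : Pool.Agent.W_cae956_h75.LSLarge P)
    (U V : Set E) (hU : IsOpen U) (hUne : U.Nonempty) (hV : IsOpen V) (hVne : V.Nonempty) :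
    ∃ n : ℤ, ∃ x ∈ U, (T ^ (P.eval n)) x ∈ V := by
  obtain ⟨G, hmin, s, hT, hs⟩ := hH
  have h1 : ∀ x : E, Dense (Set.range fun g : G => G.subtype g x) := by
    intro x
    refine (hmin x).mono ?_
    rintro y ⟨g, hg, rfl⟩
    exact ⟨⟨g, hg⟩, rfl⟩
  exact two_body G.subtype h1 ⟨T, hT⟩ s hs
    (fun r hr => by simpa using htt r hr) P hP hL U V hU hUne hV hVne

theorem generic {E : Type} [MetricSpace E] [CompactSpace E] (ι : Type) [Countable ι]
    (T : ι → (E ≃ₜ E)) :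
    ∃ S : Set E, IsGδ S ∧ Dense S ∧ ∀ x ∈ S, ∀ j : ι, HyperMin (T j) →
      (∀ r : ℕ, 0 < r → ∃ y : E, Dense (Set.range fun n : ℤ => (T j ^ ((r : ℤ) * n)) y)) →
      ∀ P : ℤ[X], 0 < P.natDegree → Pool.Agent.W_cae956_h75.LSLarge P →
        Dense (Set.range fun n : ℤ => (T j ^ (P.eval n)) x) := by
  classical
  have hcP : Countable ℤ[X] := Pool.Agent.W_cae956_h75.poly_countable
  let good : ι → ℤ[X] → Prop := fun j P =>
    HyperMin (T j) ∧
    (∀ r : ℕ, 0 < r → ∃ y : E, Dense (Set.range fun n : ℤ => (T j ^ ((r : ℤ) * n)) y)) ∧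
    0 < P.natDegree ∧ Pool.Agent.W_cae956_h75.LSLarge P
  let I : Set (ι × ℤ[X] × Set E) :=
    {a | good a.1 a.2.1 ∧ a.2.2 ∈ TopologicalSpace.countableBasis E}
  have hI : I.Countable := by
    have h1 : ((Set.univ : Set ι) ×ˢ ((Set.univ : Set ℤ[X]) ×ˢ
        TopologicalSpace.countableBasis E)).Countable :=
      Set.countable_univ.prod (Set.countable_univ.prod
        (TopologicalSpace.countable_countableBasis E))
    refine h1.mono ?_
    rintro ⟨j, P, V⟩ ⟨_, h⟩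
    exact ⟨Set.mem_univ _, Set.mem_univ _, h⟩
  let O : ι × ℤ[X] × Set E → Set E := fun a =>
    ⋃ n : ℤ, (⇑(T a.1 ^ (a.2.1.eval n))) ⁻¹' a.2.2
  have hO : ∀ a ∈ I, IsOpen (O a) := by
    rintro ⟨j, P, V⟩ ⟨_, h⟩
    exact isOpen_iUnion fun n =>
      (TopologicalSpace.isOpen_of_mem_countableBasis h).preimage (T j ^ (P.eval n)).continuous
  have hD : ∀ a ∈ I, Dense (O a) := by
    rintro ⟨j, P, V⟩ ⟨⟨h1, h2, h3, h4⟩, h⟩
    rw [dense_iff_inter_open]
    intro U hU hUne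
    obtain ⟨n, x, hx, hxn⟩ := two_body' (T j) h1 h2 P h3 h4
      U V hU hUne (TopologicalSpace.isOpen_of_mem_countableBasis h)
      (TopologicalSpace.nonempty_of_mem_countableBasis h)
    exact ⟨x, hx, Set.mem_iUnion.2 ⟨n, hxn⟩⟩
  refine ⟨⋂ a ∈ I, O a, IsGδ.biInter hI fun a ha => (hO a ha).isGδ,
    dense_biInter_of_isOpen hO hI hD, ?_⟩
  intro x hx j h1 h2 P h3 h4
  rw [(TopologicalSpace.isBasis_countableBasis E).dense_iff]
  intro V hV _
  have h5 := Set.mem_iInter₂.1 hx ⟨j, P, V⟩ ⟨⟨h1, h2, h3, h4⟩, hV⟩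
  obtain ⟨n, hn⟩ := Set.mem_iUnion.1 h5
  exact ⟨_, hn, ⟨n, rfl⟩⟩

end Pool.Agent.W_cae956_nil
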